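import Pool.Agent.H917R3.DiscExists

/-!
# The discriminant exponent of the associated form contravariant is always one
-/

open MvPolynomial Pool.Agent.H917R3

namespace Pool.Agent.Results.MP_2a8a61_ag.DiscriminantExponent

/-- The associated form `Φ(f)` of a form `f` of degree `d`: the form of degree `n * (d - 2)` whose
value at every `w` is the scalar `c` with
`(w_1 z_1 + ... + w_n z_n) ^ (n * (d - 2)) = c * Hess f` modulo the partial derivatives of `f`.
(For nondegenerate `f` there is exactly one such form, see `existsUnique_associatedForm`.) -/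
noncomputable def associatedForm {n : ℕ} (d : ℕ) (f : MvPolynomial (Fin n) ℂ) :
    MvPolynomial (Fin n) ℂ :=
  Classical.epsilon (IsAssociatedForm d f)

/-- `Δ ^ p * Φ` extends to a morphism from the space of all forms of degree `d` to the space of
forms of degree `n * (d - 2)`: there is a form `Ψ` of degree `n * (d - 2)` whose coefficients are
polynomials in the coefficients of `f` and which equals `Δ(f) ^ p * Φ(f)` whenever `Δ(f) ≠ 0`. -/
def ExtendsWithPower (n d : ℕ) (Δ : MvPolynomial (Expo n d) ℂ) (p : ℕ) : Prop :=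
  ∃ Ψ : MvPolynomial (Fin n) (MvPolynomial (Expo n d) ℂ), Ψ.IsHomogeneous (n * (d - 2)) ∧
    ∀ f : MvPolynomial (Fin n) ℂ, f.IsHomogeneous d → eval (coeffVec d f) Δ ≠ 0 →
      map (eval (coeffVec d f)) Ψ = C (eval (coeffVec d f) Δ ^ p) * associatedForm d f

theorem IsDiscriminant.vanish {n d : ℕ} {Δ : MvPolynomial (Expo n d) ℂ}
    (hΔ : IsDiscriminant n d Δ) : ∀ f : MvPolynomial (Fin n) ℂ, f.IsHomogeneous d →
      Degenerate f → eval (coeffVec d f) Δ = 0 :=
  fun f hf h => (hΔ.eval_eq_zero_iff f hf).mpr h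

theorem uniqueness {n d : ℕ} {f F F' : MvPolynomial (Fin n) ℂ}
    (hH : hessian f ∉ jacobianIdeal f) (hF : IsAssociatedForm d f F)
    (hF' : IsAssociatedForm d f F') : F = F' := by
  apply MvPolynomial.funext
  intro w
  by_contra hne
  apply hH
  have h1 := Ideal.sub_mem _ (hF'.2 w) (hF.2 w)
  rw [sub_sub_sub_cancel_left, ← sub_mul, ← C_sub] at h1
  have h2 : hessian f = C (eval w F - eval w F')⁻¹ *
      (C (eval w F - eval w F') * hessian f) := by
    rw [← mul_assoc, ← C_mul, inv_mul_cancel₀ (sub_ne_zero.mpr hne), C_1, one_mul]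
  rw [h2]
  exact Ideal.mul_mem_left _ _ h1

/-- The associated form of a nondegenerate form is well defined. -/
theorem existsUnique_associatedForm {n d : ℕ} (hn : 2 ≤ n) (hd : 3 ≤ d)
    {Δ : MvPolynomial (Expo n d) ℂ} (hΔ : IsDiscriminant n d Δ) (f : MvPolynomial (Fin n) ℂ)
    (hf : f.IsHomogeneous d) (hf0 : eval (coeffVec d f) Δ ≠ 0) :
    ∃! F : MvPolynomial (Fin n) ℂ, IsAssociatedForm d f F := by
  have hH := hessian_notMem hn hd Δ (IsDiscriminant.vanish hΔ) (coeffVec d f) hf0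
  rw [formOf_coeffVec f hf] at hH
  obtain ⟨Ψ, hΨ, hΨ'⟩ := exists_family (by omega) hd Δ (IsDiscriminant.vanish hΔ)
  refine ⟨C (eval (coeffVec d f) Δ)⁻¹ * map (eval (coeffVec d f)) Ψ, ⟨?_, ?_⟩, ?_⟩
  · exact (hΨ.map _).C_mul _
  · intro w
    have h1 := hΨ' (coeffVec d f) w
    rw [formOf_coeffVec f hf] at h1
    have h2 := Ideal.mul_mem_left _ (C (eval (coeffVec d f) Δ)⁻¹) h1
    convert h2 using 1
    rw [mul_sub, ← mul_assoc, ← C_mul, inv_mul_cancel₀ hf0, C_1, one_mul, ← mul_assoc, ← C_mul,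
      map_mul, eval_C]
  · intro F' hF'
    refine uniqueness hH hF' ⟨(hΨ.map _).C_mul _, ?_⟩
    intro w
    have h1 := hΨ' (coeffVec d f) w
    rw [formOf_coeffVec f hf] at h1
    have h2 := Ideal.mul_mem_left _ (C (eval (coeffVec d f) Δ)⁻¹) h1
    convert h2 using 1
    rw [mul_sub, ← mul_assoc, ← C_mul, inv_mul_cancel₀ hf0, C_1, one_mul, ← mul_assoc, ← C_mul,
      map_mul, eval_C]

theorem associatedForm_spec {n d : ℕ} (hn : 2 ≤ n) (hd : 3 ≤ d)
    {Δ : MvPolynomial (Expo n d) ℂ} (hΔ : IsDiscriminant n d Δ) (f : MvPolynomial (Fin n) ℂ)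
    (hf : f.IsHomogeneous d) (hf0 : eval (coeffVec d f) Δ ≠ 0) :
    IsAssociatedForm d f (associatedForm d f) :=
  Classical.epsilon_spec (existsUnique_associatedForm hn hd hΔ f hf hf0).exists

/-- `ΔΦ` extends. -/
theorem extends_one {n d : ℕ} (hn : 2 ≤ n) (hd : 3 ≤ d)
    {Δ : MvPolynomial (Expo n d) ℂ} (hΔ : IsDiscriminant n d Δ) : ExtendsWithPower n d Δ 1 := by
  obtain ⟨Ψ, hΨ, hΨ'⟩ := exists_family (by omega) hd Δ (IsDiscriminant.vanish hΔ)
  refine ⟨Ψ, hΨ, fun f hf hf0 => ?_⟩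
  have hH := hessian_notMem hn hd Δ (IsDiscriminant.vanish hΔ) (coeffVec d f) hf0
  rw [formOf_coeffVec f hf] at hH
  have hG : IsAssociatedForm d f (C (eval (coeffVec d f) Δ)⁻¹ * map (eval (coeffVec d f)) Ψ) := by
    refine ⟨(hΨ.map _).C_mul _, ?_⟩
    intro w
    have h1 := hΨ' (coeffVec d f) w
    rw [formOf_coeffVec f hf] at h1
    have h2 := Ideal.mul_mem_left _ (C (eval (coeffVec d f) Δ)⁻¹) h1
    convert h2 using 1
    rw [mul_sub, ← mul_assoc, ← C_mul, inv_mul_cancel₀ hf0, C_1, one_mul, ← mul_assoc, ← C_mul,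
      map_mul, eval_C]
  rw [uniqueness hH (associatedForm_spec hn hd hΔ f hf hf0) hG, pow_one, ← mul_assoc, ← C_mul,
    mul_inv_cancel₀ hf0, C_1, one_mul]

/-- **The discriminant exponent is always one.** For all `n ≥ 2` and `d ≥ 3` the discriminant
exists, and for every discriminant `Δ` the smallest positive integer `p` such that `Δ ^ p * Φ`
extends to a morphism on the space of all forms of degree `d` is `1`. -/
theorem result : ∀ n d : ℕ, 2 ≤ n → 3 ≤ d →
    (∃ Δ : MvPolynomial (Expo n d) ℂ, IsDiscriminant n d Δ) ∧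
    ∀ Δ : MvPolynomial (Expo n d) ℂ, IsDiscriminant n d Δ →
      IsLeast {p : ℕ | 0 < p ∧ ExtendsWithPower n d Δ p} 1 := by
  intro n d hn hd
  refine ⟨exists_isDiscriminant (by omega) hd, fun Δ hΔ => ⟨⟨one_pos, extends_one hn hd hΔ⟩, ?_⟩⟩
  rintro p ⟨hp, -⟩
  exact hp

end Pool.Agent.Results.MP_2a8a61_ag.DiscriminantExponent
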